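import Pool.Agent.N269.AK.Main

set_option autoImplicit false

/-!
# MP_b1773a: Kakeya sets whose lines are chosen by a finite automaton

A Kakeya set in `ℝ^(d+1)` contains, for every slope `v` in the unit cube `[0,1)^d`, a segment of some
line `{(t, a(v) + t v) : t ∈ ℝ}`.  We prove that it has Hausdorff dimension `d + 1` as soon as the
selection `v ↦ a(v)` is *automatic*: a finite automaton reads the base `b` digits `v_0, v_1, ...` of
the coordinates of `v` and writes vectors of rational numbers, and

  `a(v) = ∑ b^(-(n+1)) out (q_n, v_n)`,  `q_n` the state before the digit `v_n` is read.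

With one state these are the self-similar selections.  The set is closed, the segments are arbitrary
nondegenerate segments of the lines, and everything may be moved by an affine bijection of `ℝ^(d+1)`
(so that the slopes of the lines may be restricted to an arbitrarily small cube).

Proof.  (1) Kakeya sets over `ℤ/b^m` (Arsovski, Dhar; proved here for arbitrary sets of directions, by
the rank method over `ℤ[ζ]`): for some integer height `t₀` the points of the lines given by the words
of length `m` have at least `b^(dm) / poly(m)` residues modulo `b^m`.  (2) Since the family is closed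
under concatenation of words which are loops of the automaton, at every rational height
`t = p/r ≡ t₀ mod b^m` the words which are products of `k` loops give at least
`(b^(dm) / poly(m))^k` different points, for all `k`; these points lie in a lattice which depends on
`r` only, so that at the scale `b^(-mk)` of the lines they are as well separated as they can be up to
a constant.  (3) Such heights `t` are dense in `ℝ`, and the separation is stable under small changes
of `t`; this gives a set of lines over a small interval of heights which is bi-Lipschitz equivalent to
a product of a Cantor set of dimension nearly `d` and an interval.  (4) Baire's theorem in the space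
of digit sequences reduces arbitrary segments to segments over a fixed interval of heights.
-/

open Set

namespace Pool.Agent.Results.MP_b1773a_an.AutomaticKakeya

/-- Euclidean space `ℝ^n`. -/
abbrev E (n : ℕ) : Type := EuclideanSpace ℝ (Fin n)

/-- The point of `ℝ^(d+1)` with first coordinate (height) `t` and remaining coordinates `y`. -/
noncomputable def pt {d : ℕ} (t : ℝ) (y : Fin d → ℝ) : E (d + 1) := WithLp.toLp 2 (Fin.cons t y)

/-- A finite automaton which reads vectors of `d` digits in base `b` and writes vectors of `d`
rational numbers: the number of states, the start state, the transitions and the outputs. -/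
structure Automaton (d b : ℕ) where
  states : ℕ
  start : Fin states
  next : Fin states → (Fin d → Fin b) → Fin states
  out : Fin states → (Fin d → Fin b) → (Fin d → ℚ)

/-- The state of the automaton before it reads the digit number `n` of the input `Y`. -/
def Automaton.state {d b : ℕ} (A : Automaton d b) (Y : ℕ → Fin d → Fin b) : ℕ → Fin A.states
  | 0 => A.start
  | n + 1 => A.next (A.state Y n) (Y n)

/-- The base `b` digits of the coordinates of `v ∈ [0,1)^d`. -/
noncomputable def digitSeq {d : ℕ} (b : ℕ) [NeZero b] (v : Fin d → ℝ) (n : ℕ) : Fin d → Fin b :=
  fun i => Real.digits (v i) b n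

/-- The function computed by the automaton: `∑ b^(-(n+1)) out (q_n, v_n)`, where `v_n` are the
digits of `v` and `q_n` is the state before the digit `v_n` is read. -/
noncomputable def Automaton.fn {d b : ℕ} [NeZero b] (A : Automaton d b) (v : Fin d → ℝ)
    (i : Fin d) : ℝ :=
  ∑' n, (A.out (A.state (digitSeq b v) n) (digitSeq b v n) i : ℝ) / (b : ℝ) ^ (n + 1)

theorem state_eq {d b : ℕ} (A : Automaton d b) (Y : ℕ → Fin d → Fin b) (n : ℕ) :
    A.state Y n = Pool.Agent.N269.AK.st A.next A.start Y n := by
  induction n with
  | zero => rfl
  | succ n ih =>
    show A.next (A.state Y n) (Y n) = A.next _ (Y n)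
    rw [ih]

/-- **Automatic Kakeya sets have full Hausdorff dimension.**  Let `K ⊆ ℝ^(d+1)` be closed, let `F` be
an affine bijection of `ℝ^(d+1)`, and suppose that for every `v ∈ [0,1)^d` the set `F(K)` contains a
nondegenerate segment of the line `{(t, a(v) + t v) : t ∈ ℝ}`, where the function `a` is computed by
a finite automaton from the base `b` digits of `v`.  Then `dim_H K = d + 1`. -/
theorem result (d b : ℕ) [NeZero b] (hb : 2 ≤ b) (A : Automaton d b) (K : Set (E (d + 1)))
    (hK : IsClosed K) (F : E (d + 1) ≃ᵃ[ℝ] E (d + 1))
    (h : ∀ v : Fin d → ℝ, (∀ i, v i ∈ Ico (0 : ℝ) 1) →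
      ∃ t₁ t₂ : ℝ, t₁ < t₂ ∧ ∀ t ∈ Icc t₁ t₂, pt t (fun i => A.fn v i + t * v i) ∈ F '' K) :
    dimH K = (d + 1 : ℕ) := by
  have hF : F '' K = (fun x => x + F 0) '' (F.linear.toContinuousLinearEquiv '' K) := by
    rw [image_image]
    refine image_congr fun x _ => ?_
    have h1 := F.map_vadd 0 x
    simp only [vadd_eq_add, add_zero] at h1
    exact h1
  have hiso : Isometry (fun x : E (d + 1) => x + F 0) := isometry_add_right _
  have hdim : dimH (F '' K) = dimH K := by
    rw [hF, hiso.dimH_image, ContinuousLinearEquiv.dimH_image]
  have hcl : IsClosed (F '' K) := by
    rw [hF]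
    have h1 : IsClosed (F.linear.toContinuousLinearEquiv '' K) :=
      (F.linear.toContinuousLinearEquiv.toHomeomorph.isClosed_image).2 hK
    exact (Homeomorph.addRight (F 0)).isClosed_image.2 h1
  rw [← hdim]
  refine Pool.Agent.N269.AK.main hb A.start A.next A.out (F '' K) hcl fun v hv => ?_
  obtain ⟨t₁, t₂, h12, ht⟩ := h v hv
  refine ⟨t₁, t₂, h12, fun t htt => ?_⟩
  have h1 := ht t htt
  simp only [Automaton.fn, state_eq] at h1
  exact h1

end Pool.Agent.Results.MP_b1773a_an.AutomaticKakeya
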