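import Pool.Agent.N269.MX.HMain
import Pool.Agent.N269.MX.Thick

set_option autoImplicit false

/-!
# MP_b1773a: Kakeya sets whose lines are chosen with little memory

A Kakeya set in `ℝ^(d+1)` contains, for every slope `v` in the unit cube `[0,1)^d`, a segment of some
line `{(t, a(v) + t v) : t ∈ ℝ}`.  We prove:

* it has Hausdorff dimension `d + 1` as soon as the selection `v ↦ a(v)` is *automatic*: a finite
  automaton reads the base `b` digits `v_0, v_1, ...` of the coordinates of `v` and writes vectors of
  rational numbers, and `a(v) = ∑ b^(-(n+1)) out (q_n, v_n)`, `q_n` the state before the digit `v_n`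
  is read (with one state: the self-similar selections);
* it has lower Minkowski dimension `d + 1` as soon as, for all small `r`, the selection can be
  computed with the precision `O(r)` by a read-once branching program (an automaton whose tables
  depend on the time `n` in an arbitrary way, and on `r`) of width `r^(-o(1))`, i.e. with `o(log 1/r)`
  bits of memory.

It suffices that this is so for the slopes `v` in a set `V` of positive outer measure; the set is
arbitrary (no measurability), the segments are arbitrary nondegenerate segments of the lines, and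
everything may be moved by an affine bijection of `ℝ^(d+1)`.

Proof.  (1) The maximal estimate over `(ℤ/b^m)^n`, `n = d + 1`, with a loss which is polynomial in
`m`: weighted rank method over `ℤ[ζ]` for parts of lines, averages over shears, dyadic decomposition,
products of rings.  (2) By duality the sum of the powers `q = n/(n-1)` of the multiplicities of the
points (residues) at the heights `t₀ ∈ ℤ/b^m` is nearly optimal in the mean over `t₀`, for every block
of `m` letters of the program; for automata there is one `t₀` for which all blocks are nearly optimal,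
and for programs there is one `t₀` for which the product over all the blocks is (`log x ≤ x - 1`).
(3) At a rational height `p/s ≡ t₀` the power sums for long words are at most the products of those
of the blocks (the last block determines the residue).  (4) The words of length `m L` have nearly
optimal power sums of the multiplicities of the cells of side one over a whole interval of heights
around `p/s`; iterating from the first block on, the same holds at all scales.  (5) Integration over
the heights and duality give the Kakeya maximal estimate with a loss `r^(-ε)` over a small interval of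
heights, which for automata does not depend on the scale.  (6) From the maximal estimate to the
dimensions.
-/

open Set MeasureTheory
open scoped ENNReal

namespace Pool.Agent.Results.MP_b1773a_an.LowMemoryKakeya

/-- Euclidean space `ℝ^n`. -/
abbrev E (n : ℕ) : Type := EuclideanSpace ℝ (Fin n)

/-- The point of `ℝ^(d+1)` with first coordinate (height) `t` and remaining coordinates `y`. -/
noncomputable def pt {d : ℕ} (t : ℝ) (y : Fin d → ℝ) : E (d + 1) := WithLp.toLp 2 (Fin.cons t y)

/-- The base `b` digits of the coordinates of `v ∈ [0,1)^d`. -/
noncomputable def digitSeq {d : ℕ} (b : ℕ) [NeZero b] (v : Fin d → ℝ) (n : ℕ) : Fin d → Fin b :=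
  fun i => Real.digits (v i) b n

/-- A finite automaton which reads vectors of `d` digits in base `b` and writes vectors of `d`
rational numbers: the number of states, the start state, the transitions and the outputs. -/
structure Automaton (d b : ℕ) where
  states : ℕ
  start : Fin states
  next : Fin states → (Fin d → Fin b) → Fin states
  out : Fin states → (Fin d → Fin b) → (Fin d → ℚ)

/-- The state of the automaton before it reads the digit number `n` of the input `Y`. -/
def Automaton.state {d b : ℕ} (A : Automaton d b) (Y : ℕ → Fin d → Fin b) : ℕ → Fin A.states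
  | 0 => A.start
  | n + 1 => A.next (A.state Y n) (Y n)

/-- The function computed by the automaton: `∑ b^(-(n+1)) out (q_n, v_n)`, where `v_n` are the
digits of `v` and `q_n` is the state before the digit `v_n` is read. -/
noncomputable def Automaton.fn {d b : ℕ} [NeZero b] (A : Automaton d b) (v : Fin d → ℝ)
    (i : Fin d) : ℝ :=
  ∑' n, (A.out (A.state (digitSeq b v) n) (digitSeq b v n) i : ℝ) / (b : ℝ) ^ (n + 1)

/-- A read-once branching program of width `c` which reads vectors of `d` digits in base `b` and
writes vectors of `d` integers of absolute value at most `A`; the tables depend on the time `n`. -/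
structure Program (d b c A : ℕ) where
  start : Fin c
  next : ℕ → Fin c → (Fin d → Fin b) → Fin c
  out : ℕ → Fin c → (Fin d → Fin b) → (Fin d → ℤ)
  bound : ∀ n q w i, |out n q w i| ≤ A

/-- The memory state of the program before it reads the digit number `n` of the input `Y`. -/
def Program.state {d b c A : ℕ} (P : Program d b c A) (Y : ℕ → Fin d → Fin b) : ℕ → Fin c
  | 0 => P.start
  | n + 1 => P.next n (P.state Y n) (Y n)

/-- The function computed by the program: `∑ b^(-(n+1)) out_n (q_n, v_n)`. -/
noncomputable def Program.fn {d b c A : ℕ} [NeZero b] (P : Program d b c A) (v : Fin d → ℝ)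
    (i : Fin d) : ℝ :=
  ∑' n, (P.out n (P.state (digitSeq b v) n) (digitSeq b v n) i : ℝ) / (b : ℝ) ^ (n + 1)

theorem state_eq {d b : ℕ} (A : Automaton d b) (Y : ℕ → Fin d → Fin b) (n : ℕ) :
    A.state Y n = Pool.Agent.N269.AK.st A.next A.start Y n := by
  induction n with
  | zero => rfl
  | succ n ih =>
    show A.next (A.state Y n) (Y n) = A.next _ (Y n)
    rw [ih]

/-- **Kakeya sets whose lines are chosen with little memory.**  Let `K ⊆ ℝ^(d+1)` be arbitrary, let
`F` be an affine bijection of `ℝ^(d+1)`, let `V ⊆ [0,1)^d` have positive outer measure, and suppose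
that for every `v ∈ V` the set `F(K)` contains a nondegenerate segment of the line
`{(t, a(v) + t v) : t ∈ ℝ}`.

If `a` is on `V` the function computed by a finite automaton, then `dim_H K = d + 1`.

If for every `κ > 0`, for all sufficiently small `r`, there is a branching program of width at most
`r^(-κ)`, with outputs bounded by `A`, which computes `a` on `V` with the precision `A r`, then the
lower Minkowski dimension of `K` is `d + 1`: for every `ε > 0` there is `C > 0` such that the
`r`-neighbourhood of `K` has measure at least `C r^ε`, for all `0 < r < 1`. -/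
theorem result (d b : ℕ) [NeZero b] (hd : 1 ≤ d) (hb : 2 ≤ b) (K : Set (E (d + 1)))
    (F : E (d + 1) ≃ᵃ[ℝ] E (d + 1)) (V : Set (Fin d → ℝ))
    (hV : ∀ v ∈ V, ∀ i, v i ∈ Ico (0 : ℝ) 1) (hV0 : volume V ≠ 0)
    (a : (Fin d → ℝ) → Fin d → ℝ)
    (h : ∀ v ∈ V, ∃ t₁ t₂ : ℝ, t₁ < t₂ ∧
      ∀ t ∈ Icc t₁ t₂, pt t (fun i => a v i + t * v i) ∈ F '' K) :
    ((∃ M : Automaton d b, ∀ v ∈ V, a v = M.fn v) → dimH K = (d + 1 : ℕ)) ∧
    (∀ A : ℕ,
      (∀ κ : ℝ, 0 < κ → ∃ r₀ : ℝ, 0 < r₀ ∧ ∀ r : ℝ, 0 < r → r < r₀ →
        ∃ (c : ℕ) (P : Program d b c A), (c : ℝ) ≤ r ^ (-κ) ∧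
          ∀ v ∈ V, ∀ i, |P.fn v i - a v i| ≤ A * r) →
      ∀ ε : ℝ, 0 < ε → ∃ C : ℝ, 0 < C ∧ ∀ r : ℝ, 0 < r → r < 1 →
        ENNReal.ofReal (C * r ^ ε) ≤ volume (Metric.thickening r K)) := by
  constructor
  · rintro ⟨M, hM⟩
    have hF : F '' K = (fun x => x + F 0) '' (F.linear.toContinuousLinearEquiv '' K) := by
      rw [image_image]
      refine image_congr fun x _ => ?_
      have h1 := F.map_vadd 0 x
      simp only [vadd_eq_add, add_zero] at h1
      exact h1
    have hiso : Isometry (fun x : E (d + 1) => x + F 0) := isometry_add_right _
    have hdim : dimH (F '' K) = dimH K := by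
      rw [hF, hiso.dimH_image, ContinuousLinearEquiv.dimH_image]
    rw [← hdim]
    refine Pool.Agent.N269.MX.hmain hb hd M.start M.next M.out (F '' K) V hV hV0 fun v hv => ?_
    obtain ⟨t₁, t₂, h12, ht⟩ := h v hv
    refine ⟨t₁, t₂, h12, fun t htt => ?_⟩
    have h1 := ht t htt
    rw [hM v hv] at h1
    simp only [Automaton.fn, state_eq] at h1
    exact h1
  · intro A hP ε hε
    obtain ⟨L, k, hL, hk, hvol⟩ := Pool.Agent.N269.MX.thick_vol F K
    obtain ⟨C, hC, hmink⟩ := Pool.Agent.N269.MX.mink hb hd A a
      ((fun z : ℝ × (Fin d → ℝ) => Pool.Agent.N269.AK.pt z.1 z.2) ⁻¹' (F '' K)) V hV hV0 h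
      (fun κ hκ => by
        obtain ⟨r₀, hr₀, hr⟩ := hP κ hκ
        refine ⟨r₀, hr₀, fun r hr1 hr2 => ?_⟩
        obtain ⟨c, P, hc, happ⟩ := hr r hr1 hr2
        have hst : ∀ (Y : ℕ → Fin d → Fin b) (n : ℕ),
            Pool.Agent.N269.AK.st (fun (s : ℕ × Fin c) w => (s.1 + 1, P.next s.1 s.2 w))
              (0, P.start) Y n = (n, P.state Y n) := by
          intro Y n
          induction n with
          | zero => rfl
          | succ n ih =>
            show (fun (s : ℕ × Fin c) w => (s.1 + 1, P.next s.1 s.2 w))
              (Pool.Agent.N269.AK.st _ (0, P.start) Y n) (Y n) = _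
            rw [ih]
            rfl
        have hfn : ∀ v : Fin d → ℝ, P.fn v =
            Pool.Agent.N269.AK.pos b (fun (s : ℕ × Fin c) w => (s.1 + 1, P.next s.1 s.2 w))
              (fun s w => P.out s.1 s.2 w) (0, P.start) (Pool.Agent.N269.MX.dseq d b v) := by
          intro v
          funext i
          unfold Program.fn Pool.Agent.N269.AK.pos Pool.Agent.N269.AK.ser
          refine tsum_congr fun n => ?_
          show _ = (((fun (s : ℕ × Fin c) w => P.out s.1 s.2 w) (Pool.Agent.N269.AK.st
            (fun (s : ℕ × Fin c) w => (s.1 + 1, P.next s.1 s.2 w)) (0, P.start)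
            (Pool.Agent.N269.MX.dseq d b v) n) (Pool.Agent.N269.MX.dseq d b v n) i : ℤ) : ℝ) /
            (b : ℝ) ^ (n + 1)
          rw [hst]
          rfl
        refine ⟨c, ℕ × Fin c, fun s w => (s.1 + 1, P.next s.1 s.2 w), fun s w => P.out s.1 s.2 w,
          fun i => ({i} : Finset ℕ) ×ˢ Finset.univ, (0, P.start), ?_, hc,
          fun s w i => P.bound _ _ _ _, ?_, ?_, ?_, ?_⟩
        · have := P.start.2
          omega
        · intro i s hs w
          simp only [Finset.mem_product, Finset.mem_singleton, Finset.mem_univ, and_true] at hs
          simp only [Finset.mem_product, Finset.mem_singleton, Finset.mem_univ, and_true, hs]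
        · intro i
          simp
        · simp
        · intro v hv i
          rw [← hfn v]
          exact happ v hv i) ε hε
    have hL0 : 0 < L := by linarith
    refine ⟨C * L ^ (-ε) / k, by positivity, fun r hr hr1 => ?_⟩
    have h1 := hmink (r / L) (by positivity) ((div_le_self hr.le hL).trans_lt hr1)
    have h2 := h1.trans (hvol r hr)
    have h3 : C * L ^ (-ε) / k * r ^ ε = k⁻¹ * (C * (r / L) ^ ε) := by
      rw [Real.div_rpow hr.le hL0.le, Real.rpow_neg hL0.le]
      field_simp
    rw [h3, ENNReal.ofReal_mul (by positivity)]
    calc ENNReal.ofReal k⁻¹ * ENNReal.ofReal (C * (r / L) ^ ε)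
        ≤ ENNReal.ofReal k⁻¹ * (ENNReal.ofReal k * volume (Metric.thickening r K)) :=
          mul_le_mul_right h2 _
      _ = volume (Metric.thickening r K) := by
          rw [← mul_assoc, ← ENNReal.ofReal_mul (by positivity), inv_mul_cancel₀ hk.ne',
            ENNReal.ofReal_one, one_mul]

end Pool.Agent.Results.MP_b1773a_an.LowMemoryKakeya
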